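import Mathlib

namespace Pool.Agent.Results.MP_0fbb7a_co.Vanish

variable {A : Type}

/-- The factor of `u` of length `n` starting at position `i`. -/
def fac (u : ℕ → A) (i n : ℕ) : List A := (List.range n).map fun k => u (i + k)

/-- `w` is a finite factor of the infinite word `u` (the empty word included). -/
def IsFactor (u : ℕ → A) (w : List A) : Prop := ∃ i, w = fac u i w.length

/-- Factor complexity: the number of factors of length `n`. -/
noncomputable def C (u : ℕ → A) (n : ℕ) : ℕ := {w | IsFactor u w ∧ w.length = n}.ncard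

/-- Palindromic complexity: the number of palindromic factors of length `n`. -/
noncomputable def P (u : ℕ → A) (n : ℕ) : ℕ :=
  {w | IsFactor u w ∧ w.length = n ∧ w.reverse = w}.ncard

/-- `T(n) = C(n+1) - C(n) + 2 - P(n+1) - P(n)`, computed in the integers. -/
noncomputable def T (u : ℕ → A) (n : ℕ) : ℤ :=
  (C u (n + 1) : ℤ) - (C u n : ℤ) + 2 - (P u (n + 1) : ℤ) - (P u n : ℤ)

/-- The number of occurrences of `w` in the finite word `v`. -/
noncomputable def occ (w v : List A) : ℕ := {s | s ≤ v.length ∧ w <+: v.drop s}.ncard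

/-- `v` is a complete return word of `w` in `u`. -/
def IsCRW (u : ℕ → A) (w v : List A) : Prop :=
  IsFactor u v ∧ w.length < v.length ∧ w <+: v ∧ w <:+ v ∧ occ w v = 2

@[simp] lemma length_fac (u : ℕ → A) (i n : ℕ) : (fac u i n).length = n := by simp [fac]

lemma getElem_fac (u : ℕ → A) (i n k : ℕ) (h : k < (fac u i n).length) :
    (fac u i n)[k] = u (i + k) := by simp [fac]

lemma isFactor_fac (u : ℕ → A) (i n : ℕ) : IsFactor u (fac u i n) := ⟨i, by simp⟩

lemma fac_eq_iff (u : ℕ → A) (i j n : ℕ) :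
    fac u i n = fac u j n ↔ ∀ k < n, u (i + k) = u (j + k) := by
  constructor
  · intro h k hk
    have h1 : (fac u i n)[k]'(by simpa using hk) = (fac u j n)[k]'(by simpa using hk) := by
      simp only [h]
    simpa [getElem_fac] using h1
  · intro h
    apply List.ext_getElem (by simp)
    intro k h1 h2
    rw [getElem_fac, getElem_fac]
    exact h k (by simpa using h1)

lemma fac_eq_rev_iff (u : ℕ → A) (i j n : ℕ) :
    fac u i n = (fac u j n).reverse ↔ ∀ k l, k + l + 1 = n → u (i + k) = u (j + l) := by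
  constructor
  · intro h k l hk
    have h1 : (fac u i n)[k]'(by simp; omega) = ((fac u j n).reverse)[k]'(by simp; omega) := by
      simp only [h]
    rw [List.getElem_reverse, getElem_fac, getElem_fac] at h1
    rw [h1]; congr 1; simp; omega
  · intro h
    apply List.ext_getElem (by simp)
    intro k h1 h2
    rw [List.getElem_reverse, getElem_fac, getElem_fac]
    apply h
    simp at h1 ⊢; omega

lemma pal_iff (u : ℕ → A) (i n : ℕ) :
    (fac u i n).reverse = fac u i n ↔ ∀ k l, k + l + 1 = n → u (i + k) = u (i + l) := by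
  rw [eq_comm, fac_eq_rev_iff]

lemma drop_fac (u : ℕ → A) (j L s : ℕ) : (fac u j L).drop s = fac u (j + s) (L - s) := by
  apply List.ext_getElem (by simp)
  intro k h1 h2
  rw [List.getElem_drop, getElem_fac, getElem_fac, add_assoc]

lemma prefix_fac_iff (u : ℕ → A) (i m j L : ℕ) :
    fac u i m <+: fac u j L ↔ m ≤ L ∧ fac u j m = fac u i m := by
  constructor
  · intro h
    have hl : m ≤ L := by simpa using h.length_le
    refine ⟨hl, ?_⟩
    rw [fac_eq_iff]
    intro k hk
    have := h.getElem (i := k) (by simpa using hk)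
    rw [getElem_fac, getElem_fac] at this
    exact this.symm
  · rintro ⟨hl, h⟩
    rw [← h, List.prefix_iff_eq_take]
    apply List.ext_getElem (by simp [hl])
    intro k h1 h2
    rw [List.getElem_take, getElem_fac, getElem_fac]

section
variable (u : ℕ → A) (K : ℕ)
  (hK : ∀ w v, IsFactor u w → w.reverse = w → K ≤ w.length → IsCRW u w v → v.reverse = v)
include hK

/-- The complete return to the last earlier occurrence of a long palindrome is a palindrome. -/
lemma ret (i m : ℕ) (hp : (fac u i m).reverse = fac u i m) (hm : K ≤ m)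
    (h : ∃ j < i, fac u j m = fac u i m) :
    ∃ j < i, fac u j m = fac u i m ∧ (fac u j (i + m - j)).reverse = fac u j (i + m - j) := by
  classical
  obtain ⟨j0, hj0, hj0'⟩ := h
  set j := Nat.findGreatest (fun j => fac u j m = fac u i m) (i - 1) with hj
  have hjs : fac u j m = fac u i m :=
    Nat.findGreatest_spec (P := fun j => fac u j m = fac u i m) (m := j0) (by omega) hj0'
  have hjl : j ≤ i - 1 := Nat.findGreatest_le _
  have hmax : ∀ s, j < s → s < i → fac u s m ≠ fac u i m := fun s h1 h2 =>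
    Nat.findGreatest_is_greatest (P := fun j => fac u j m = fac u i m) h1 (by omega)
  refine ⟨j, by omega, hjs, hK (fac u i m) _ (isFactor_fac _ _ _) hp (by simpa using hm) ?_⟩
  refine ⟨isFactor_fac _ _ _, by simp; omega, ?_, ?_, ?_⟩
  · rw [prefix_fac_iff]; exact ⟨by omega, hjs⟩
  · have := List.drop_suffix (i - j) (fac u j (i + m - j))
    rw [drop_fac] at this
    have e1 : j + (i - j) = i := by omega
    have e2 : i + m - j - (i - j) = m := by omega
    rwa [e1, e2] at this
  · have : {s | s ≤ (fac u j (i + m - j)).length ∧ fac u i m <+: (fac u j (i + m - j)).drop s}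
        = {0, i - j} := by
      ext s
      simp only [length_fac, drop_fac, prefix_fac_iff, Set.mem_ofPred_eq, Set.mem_insert_iff,
        Set.mem_singleton_iff]
      constructor
      · rintro ⟨h1, h2, h3⟩
        by_contra hc
        push Not at hc
        exact hmax (j + s) (by omega) (by omega) h3
      · rintro (rfl | rfl)
        · exact ⟨by omega, by omega, by simpa using hjs⟩
        · refine ⟨by omega, by omega, ?_⟩
          congr 1; omega
    unfold occ
    rw [this, Set.ncard_pair (by omega)]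

end

/-- A palindrome of length at least `K` ends just before position `t`. -/
def Good (u : ℕ → A) (K t : ℕ) : Prop :=
  ∃ i m, K ≤ m ∧ i + m = t ∧ (fac u i m).reverse = fac u i m

lemma good_shrink (u : ℕ → A) (K i m t : ℕ) (hm : K + 2 ≤ m) (ht : i + m = t + 1)
    (hp : (fac u i m).reverse = fac u i m) : Good u K t := by
  refine ⟨i + 1, m - 2, by omega, by omega, ?_⟩
  rw [pal_iff] at hp ⊢
  intro k l hkl
  have := hp (k + 1) (l + 1) (by omega)
  rw [show i + 1 + k = i + (k + 1) by omega, show i + 1 + l = i + (l + 1) by omega]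
  exact this

lemma finite_len [Finite A] (n : ℕ) (Q : List A → Prop) :
    {w : List A | Q w ∧ w.length = n}.Finite :=
  (List.finite_length_eq A n).subset fun _ h => h.2

lemma early [Finite A] (u : ℕ → A) (m : ℕ) : ∃ B, ∀ i, ∃ j ≤ B, fac u j m = fac u i m := by
  classical
  have hf := finite_len m (IsFactor u)
  have : ∀ w : List A, ∃ j, (IsFactor u w ∧ w.length = m) → fac u j m = w := by
    intro w
    by_cases h : IsFactor u w ∧ w.length = m
    · obtain ⟨⟨i, hi⟩, h2⟩ := h
      exact ⟨i, fun _ => by rw [hi, h2]⟩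
    · exact ⟨0, fun h' => absurd h' h⟩
  choose g hg using this
  obtain ⟨B, hB⟩ := (hf.image g).bddAbove
  refine ⟨B, fun i => ⟨g (fac u i m), hB ⟨_, ⟨isFactor_fac _ _ _, by simp⟩, rfl⟩,
    hg _ ⟨isFactor_fac _ _ _, by simp⟩⟩⟩

lemma good_far [Finite A] (u : ℕ → A) (K : ℕ)
    (hrev : ∀ w, IsFactor u w → IsFactor u w.reverse)
    (hinf : {w | IsFactor u w ∧ w.reverse = w}.Infinite) (M : ℕ) : ∃ t, M ≤ t ∧ Good u K t := by
  have : ∃ w, (IsFactor u w ∧ w.reverse = w) ∧ K ≤ w.length := by
    by_contra hc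
    push Not at hc
    exact hinf ((List.finite_length_lt A K).subset fun w hw => hc w hw)
  obtain ⟨w, ⟨⟨i, hi⟩, hp⟩, hl⟩ := this
  set m := w.length
  rw [hi] at hp
  obtain ⟨a, ha⟩ := hrev _ (isFactor_fac u 0 (i + m + M))
  simp only [List.length_reverse, length_fac] at ha
  rw [eq_comm, fac_eq_rev_iff] at ha
  refine ⟨a + M + m, by omega, a + M, m, hl, rfl, ?_⟩
  rw [pal_iff] at hp ⊢
  intro k l hkl
  have h1 := ha (M + k) (i + l) (by omega)
  have h2 := ha (M + l) (i + k) (by omega)
  rw [add_assoc, add_assoc, h1, h2, zero_add, zero_add]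
  exact hp l k (by omega)

lemma good_all [Finite A] (u : ℕ → A) (K : ℕ)
    (hK : ∀ w v, IsFactor u w → w.reverse = w → K ≤ w.length → IsCRW u w v → v.reverse = v)
    (hrev : ∀ w, IsFactor u w → IsFactor u w.reverse)
    (hinf : {w | IsFactor u w ∧ w.reverse = w}.Infinite) : ∃ N, ∀ t, N ≤ t → Good u K t := by
  obtain ⟨B0, hB0⟩ := early u K
  obtain ⟨B1, hB1⟩ := early u (K + 1)
  have step : ∀ t, B0 + B1 + K + 1 ≤ t → Good u K (t + 1) → Good u K t := by
    rintro t ht ⟨i, m, hm, him, hp⟩
    by_cases h2 : K + 2 ≤ m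
    · exact good_shrink u K i m t h2 him hp
    have hex : ∃ j < i, fac u j m = fac u i m := by
      rcases (by omega : m = K ∨ m = K + 1) with rfl | rfl
      · obtain ⟨j, hj, hj'⟩ := hB0 i
        exact ⟨j, by omega, hj'⟩
      · obtain ⟨j, hj, hj'⟩ := hB1 i
        exact ⟨j, by omega, hj'⟩
    obtain ⟨j, hj, hs, hR⟩ := ret u K hK i m hp hm hex
    by_cases h3 : K + 2 ≤ i + m - j
    · exact good_shrink u K j _ t h3 (by omega) hR
    · exact ⟨j, m, hm, by omega, by rw [hs, hp]⟩
  refine ⟨B0 + B1 + K + 1, fun t ht => ?_⟩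
  obtain ⟨t', h1, h2⟩ := good_far u K hrev hinf t
  induction t', h1 using Nat.le_induction with
  | base => exact h2
  | succ s hs ih => exact ih (step s (by omega) h2)

lemma unioc (u : ℕ → A) (K : ℕ)
    (hK : ∀ w v, IsFactor u w → w.reverse = w → K ≤ w.length → IsCRW u w v → v.reverse = v)
    (t : ℕ) (h : Good u K t) :
    ∃ i m, i + m = t ∧ (fac u i m).reverse = fac u i m ∧ ∀ j < i, fac u j m ≠ fac u i m := by
  classical
  have hex : ∃ i, ∃ m, K ≤ m ∧ i + m = t ∧ (fac u i m).reverse = fac u i m := h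
  obtain ⟨m, hm, him, hp⟩ := Nat.find_spec hex
  refine ⟨_, m, him, hp, fun j hj hs => ?_⟩
  obtain ⟨j', hj', -, hR⟩ := ret u K hK _ m hp hm ⟨j, hj, hs⟩
  exact Nat.find_min hex hj' ⟨_, by omega, by omega, hR⟩

/-- Positions where a factor of length `n` appears for the first time up to reversal. -/
def First (u : ℕ → A) (n p : ℕ) : Prop :=
  ∀ j < p, fac u j n ≠ fac u p n ∧ fac u j n ≠ (fac u p n).reverse

lemma count [Finite A] (u : ℕ → A) (hrev : ∀ w, IsFactor u w → IsFactor u w.reverse) (n : ℕ)
    (Q : List A → Prop) (hQ : ∀ w, Q w → Q w.reverse) :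
    {p | First u n p ∧ Q (fac u p n)}.Finite ∧
    {w | (IsFactor u w ∧ Q w) ∧ w.length = n}.ncard +
      {w | (IsFactor u w ∧ Q w ∧ w.reverse = w) ∧ w.length = n}.ncard
      = 2 * {p | First u n p ∧ Q (fac u p n)}.ncard := by
  classical
  set S := {p | First u n p ∧ Q (fac u p n)} with hS
  set X := (fun p => fac u p n) '' S with hX
  have hinj : Set.InjOn (fun p => fac u p n) S := by
    intro p hp q hq h
    rcases lt_trichotomy p q with h1 | h1 | h1
    · exact absurd h (hq.1 p h1).1
    · exact h1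
    · exact absurd h.symm (hp.1 q h1).1
  have hXf : X.Finite := (List.finite_length_eq A n).subset (by
    rintro _ ⟨p, -, rfl⟩; simp)
  have hSf : S.Finite := Set.Finite.of_finite_image hXf hinj
  have hfirst : ∀ w, IsFactor u w → Q w → w.length = n →
      ∃ p ∈ S, fac u p n = w ∨ fac u p n = w.reverse := by
    rintro w ⟨i, hi⟩ hq hl
    have hex : ∃ p, fac u p n = w ∨ fac u p n = w.reverse := ⟨i, Or.inl (by rw [hi, hl])⟩
    refine ⟨Nat.find hex, ⟨fun j hj => ?_, ?_⟩, Nat.find_spec hex⟩
    · have hmin := Nat.find_min hex hj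
      push Not at hmin
      rcases Nat.find_spec hex with h | h
      · rw [h]; exact hmin
      · rw [h, List.reverse_reverse]; exact ⟨hmin.2, hmin.1⟩
    · rcases Nat.find_spec hex with h | h
      · rw [h]; exact hq
      · rw [h]; exact hQ _ hq
  have hU : X ∪ List.reverse '' X = {w | (IsFactor u w ∧ Q w) ∧ w.length = n} := by
    ext w
    constructor
    · rintro (⟨p, hp, rfl⟩ | ⟨_, ⟨p, hp, rfl⟩, rfl⟩)
      · exact ⟨⟨isFactor_fac _ _ _, hp.2⟩, by simp⟩
      · exact ⟨⟨hrev _ (isFactor_fac _ _ _), hQ _ hp.2⟩, by simp⟩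
    · rintro ⟨⟨h1, h2⟩, h3⟩
      obtain ⟨p, hp, h | h⟩ := hfirst w h1 h2 h3
      · exact Or.inl ⟨p, hp, h⟩
      · exact Or.inr ⟨_, ⟨p, hp, h⟩, by simp⟩
  have hI : X ∩ List.reverse '' X
      = {w | (IsFactor u w ∧ Q w ∧ w.reverse = w) ∧ w.length = n} := by
    ext w
    constructor
    · rintro ⟨⟨p, hp, rfl⟩, ⟨_, ⟨q, hq, rfl⟩, h⟩⟩
      refine ⟨⟨isFactor_fac _ _ _, hp.2, ?_⟩, by simp⟩
      simp only at h ⊢
      rcases lt_trichotomy p q with h1 | h1 | h1
      · exact absurd h.symm (hq.1 p h1).2
      · rw [h1] at h ⊢; exact h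
      · exact absurd (by rw [← h, List.reverse_reverse]) (hp.1 q h1).2
    · rintro ⟨⟨h1, h2, h4⟩, h3⟩
      obtain ⟨p, hp, h⟩ := hfirst w h1 h2 h3
      rw [h4, or_self] at h
      exact ⟨⟨p, hp, h⟩, _, ⟨p, hp, h⟩, h4⟩
  refine ⟨hSf, ?_⟩
  rw [← hU, ← hI, Set.ncard_union_add_ncard_inter _ _ hXf (hXf.image _),
    Set.ncard_image_of_injective _ List.reverse_injective, hX, hinj.ncard_image]
  ring

lemma shift_iff (u : ℕ → A) (n p : ℕ)
    (h : ∃ i m, i + m = p + (n + 1) ∧ (fac u i m).reverse = fac u i m ∧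
      ∀ j < i, fac u j m ≠ fac u i m) :
    (First u (n + 1) p ∧ (fac u p (n + 1)).reverse ≠ fac u p (n + 1)) ↔ First u n (p + 1) := by
  constructor
  · rintro ⟨hF, hnp⟩ j hj
    obtain ⟨i, m, him, hp, hu⟩ := h
    have hpp := hp
    rw [pal_iff] at hp
    rcases lt_trichotomy m (n + 1) with hm | hm | hm
    · constructor
      · intro hs
        rw [fac_eq_iff] at hs
        apply hu (j + (n - m)) (by omega)
        rw [fac_eq_iff]
        intro k hk
        have := hs (n - m + k) (by omega)
        rw [add_assoc, this]; congr 1; omega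
      · intro hs
        rw [fac_eq_rev_iff] at hs
        apply hu j (by omega)
        rw [fac_eq_iff]
        intro k hk
        rw [hs k (n - 1 - k) (by omega), hp k (m - 1 - k) (by omega)]
        congr 1; omega
    · exfalso
      apply hnp
      have : i = p := by omega
      rw [← this, ← hm]; exact hpp
    · exfalso
      apply (hF i (by omega)).2
      rw [fac_eq_rev_iff]
      intro k l hkl
      rw [hp k (m - 1 - k) (by omega)]
      congr 1; omega
  · intro hF
    refine ⟨fun j hj => ⟨fun hs => ?_, fun hs => ?_⟩, fun hs => ?_⟩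
    · apply (hF (j + 1) (by omega)).1
      rw [fac_eq_iff] at hs ⊢
      intro k hk
      have := hs (k + 1) (by omega)
      rw [show j + 1 + k = j + (k + 1) by omega, show p + 1 + k = p + (k + 1) by omega]
      exact this
    · apply (hF j (by omega)).2
      rw [fac_eq_rev_iff] at hs ⊢
      intro k l hkl
      rw [hs k (l + 1) (by omega)]
      congr 1; omega
    · apply (hF p (by omega)).2
      rw [pal_iff] at hs
      rw [fac_eq_rev_iff]
      intro k l hkl
      rw [hs k (l + 1) (by omega)]
      congr 1; omega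

theorem result {A : Type} [Finite A] (u : ℕ → A)
    (hrev : ∀ w, IsFactor u w → IsFactor u w.reverse)
    (hinf : {w | IsFactor u w ∧ w.reverse = w}.Infinite) (K : ℕ)
    (hK : ∀ w v, IsFactor u w → w.reverse = w → K ≤ w.length → IsCRW u w v → v.reverse = v) :
    ∃ N, ∀ n, N ≤ n → T u n = 0 := by
  obtain ⟨N, hN⟩ := good_all u K hK hrev hinf
  refine ⟨N, fun n hn => ?_⟩
  obtain ⟨hf1, h1⟩ := count u hrev n (fun _ => True) (fun _ _ => trivial)
  obtain ⟨hf2, h2⟩ := count u hrev (n + 1) (fun w => w.reverse ≠ w)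
    (fun w hw h => hw (by rw [List.reverse_reverse] at h; exact h.symm))
  have e1 : {w | (IsFactor u w ∧ True) ∧ w.length = n}.ncard = C u n := by
    unfold C; congr 1; ext w; simp
  have e2 : {w | (IsFactor u w ∧ True ∧ w.reverse = w) ∧ w.length = n}.ncard = P u n := by
    unfold P; congr 1; ext w; simp only [Set.mem_ofPred_eq]; tauto
  have e3 : {w | (IsFactor u w ∧ w.reverse ≠ w ∧ w.reverse = w) ∧ w.length = n + 1}.ncard = 0 := by
    have : {w | (IsFactor u w ∧ w.reverse ≠ w ∧ w.reverse = w) ∧ w.length = n + 1} = ∅ := by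
      ext w; simp only [Set.mem_ofPred_eq, Set.mem_empty_iff_false]; tauto
    rw [this, Set.ncard_empty]
  have e4 : {w | (IsFactor u w ∧ w.reverse ≠ w) ∧ w.length = n + 1}.ncard + P u (n + 1)
      = C u (n + 1) := by
    unfold P C
    rw [← Set.ncard_union_eq _ (finite_len _ _)
      ((List.finite_length_eq A (n + 1)).subset fun w hw => hw.2.1)]
    · congr 1; ext w; simp only [Set.mem_ofPred_eq, Set.mem_union]; tauto
    · rw [Set.disjoint_left]; rintro w ⟨⟨-, h⟩, -⟩ ⟨-, -, h'⟩; exact h h'
  have e5 : {p | First u n p ∧ True} = insert 0 (Nat.succ ''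
      {p | First u (n + 1) p ∧ (fac u p (n + 1)).reverse ≠ fac u p (n + 1)}) := by
    ext p
    rcases p with _ | p
    · simp only [Set.mem_ofPred_eq, and_true, Set.mem_insert_iff, true_or, iff_true]
      intro j hj; omega
    · have := shift_iff u n p (unioc u K hK _ (hN _ (by omega)))
      simp only [Set.mem_ofPred_eq, and_true, Set.mem_insert_iff, Set.mem_image]
      constructor
      · intro h; exact Or.inr ⟨p, this.2 h, rfl⟩
      · rintro (h | ⟨q, hq, h⟩)
        · omega
        · have : q = p := by omega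
          subst this
          exact this.1 hq
  rw [e1, e2, e5, Set.ncard_insert_of_notMem (by simp) (hf2.image _),
    Set.ncard_image_of_injective _ Nat.succ_injective] at h1
  rw [e3] at h2
  unfold T
  omega

end Pool.Agent.Results.MP_0fbb7a_co.Vanish
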